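import Mathlib

set_option autoImplicit false

namespace Pool.Agent.Results.MP_68822d_al.Part

open Cardinal Set Order Pointwise

universe u

/-- `A` is left and right `κ`-large in the group `G`. -/
def Large {G : Type u} [Group G] (κ : Cardinal.{u}) (A : Set G) : Prop :=
  (∃ F : Set G, #F < κ ∧ F * A = Set.univ) ∧ ∃ F : Set G, #F < κ ∧ A * F = Set.univ

lemma sdr {ι X : Type u} [Nonempty X] (J : Set ι) (s : ι → Set X) (h : ∀ j ∈ J, #J ≤ #(s j)) :
    ∃ f : ι → X, InjOn f J ∧ ∀ j ∈ J, f j ∈ s j := by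
  classical
  obtain ⟨_, _, ho⟩ := exists_ord_eq_type_lt J
  let f : J → X := (wellFounded_lt (α := J)).fix fun j g =>
    Classical.epsilon fun x => x ∈ s j ∧ ∀ i (hi : i < j), g i hi ≠ x
  have hf : ∀ j : J, f j ∈ s j ∧ ∀ i < j, f i ≠ f j := fun j => by
    have e : f j = Classical.epsilon fun x => x ∈ s j ∧ ∀ i < j, f i ≠ x :=
      WellFounded.fix_eq _ _ j
    rw [e]
    refine Classical.epsilon_spec (p := fun x => x ∈ s j ∧ ∀ i < j, f i ≠ x) ?_
    by_contra hh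
    push Not at hh
    exact ((h j j.2).trans ((mk_le_mk_of_subset (t := f '' Iio j) fun x hx => hh x hx).trans
      mk_image_le)).not_gt (mk_Iio_lt j ho)
  refine ⟨fun j => if h : j ∈ J then f ⟨j, h⟩ else Classical.arbitrary X, fun i hi j hj e => ?_,
    fun j hj => by simpa [hj] using (hf ⟨j, hj⟩).1⟩
  simp only [hi, hj, dif_pos] at e
  rcases lt_trichotomy (⟨i, hi⟩ : J) ⟨j, hj⟩ with h | h | h
  exacts [((hf _).2 _ h e).elim, congrArg Subtype.val h, ((hf _).2 _ h e.symm).elim]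

variable {G : Type u} [Group G]

lemma mk_cl (s : Set G) (c : Cardinal.{u}) (hc : ℵ₀ ≤ c) (h : #s ≤ c) : #(Subgroup.closure s) ≤ c := by
  rcases s.eq_empty_or_nonempty with rfl | hs
  · simpa using one_le_aleph0.trans hc
  · have := hs.to_subtype
    rw [FreeGroup.closure_eq_range]
    exact mk_range_le.trans (by rw [mk_freeGroup]; exact max_le h hc)

def m (b : Bool) (x y : G) : G := if b then x * y else y * x

lemma m_mem (b : Bool) (H : Subgroup G) {x : G} (y : G) (h : x ∈ H) : m b x y ∈ H ↔ y ∈ H := by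
  cases b <;> simp [m, H.mul_mem_cancel_left h, H.mul_mem_cancel_right h]

lemma m_inj (b : Bool) (y : G) : Function.Injective fun x => m b x y := by
  intro x z h; cases b <;> simpa [m] using h

def Good (G : Type u) [Group G] : Prop := ∃ c : G → Option G, ∀ a, ∃ F : Set G, #F < #G ∧
  ∀ b g, ∃ f ∈ F, c (m b f g) = some a

omit [Group G] in
lemma of_inj {ι : Type u} (J : Set ι) (f : ι → G) (k : ι → G) (hf : InjOn f J) :
    ∃ c : G → Option G, ∀ j ∈ J, c (f j) = some (k j) := by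
  classical
  refine ⟨fun x => if h : ∃ j ∈ J, f j = x then some (k h.choose) else none, fun j hj => ?_⟩
  have h : ∃ i ∈ J, f i = f j := ⟨j, hj, rfl⟩
  simp only [dif_pos h, hf h.choose_spec.1 hj h.choose_spec.2]

lemma countable (h : #G = ℵ₀) : Good G := by
  classical
  have : Infinite G := infinite_iff.2 h.ge
  obtain ⟨e⟩ : Nonempty (ℕ ≃ G) := Cardinal.lift_mk_eq'.1 (by simp [h])
  choose E hE using fun n => Infinite.exists_subset_card_eq G (2 ^ (n + 1))
  let t : ℕ → G → Finset G := fun n g => (E n).image fun x => m (n % 2 = 0) x g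
  have ht : ∀ n g, (t n g).card = 2 ^ (n + 1) := fun n g => by
    rw [Finset.card_image_of_injective _ (m_inj _ _), hE]
  have hS : ∀ n, ∃ S : Set G, S.PairwiseDisjoint (t n) ∧ ∀ g, ∃ s ∈ S, ¬Disjoint (t n g) (t n s) := by
    intro n
    obtain ⟨S, hS⟩ := zorn_subset {S : Set G | S.PairwiseDisjoint (t n)} fun c hc hc' =>
      ⟨⋃₀ c, (hc'.pairwiseDisjoint_sUnion _).2 hc, fun s hs => subset_sUnion_of_mem hs⟩
    refine ⟨S, hS.prop, fun g => ?_⟩
    by_contra hh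
    push Not at hh
    have := hh g (hS.mem_of_prop_insert (hS.prop.insert fun s hs _ => hh s hs))
    rw [disjoint_self, Finset.bot_eq_empty, ← Finset.card_eq_zero, ht] at this
    simp at this
  choose S S1 S2 using hS
  obtain ⟨f, f1, f2⟩ := (Finset.all_card_le_biUnion_card_iff_exists_injective
    fun j : {p : ℕ × G // p.2 ∈ S p.1} => t j.1.1 j.1.2).1 fun T => by
    set U := (T.biUnion fun j => t j.1.1 j.1.2).card
    have h1 : ∀ n, ((T.filter fun j => j.1.1 = n).card : ℝ) ≤ U * (1 / 2 / 2 ^ n) := fun n => by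
      have : (T.filter fun j => j.1.1 = n).card * 2 ^ (n + 1) ≤ U := by
        rw [← smul_eq_mul, ← Finset.sum_const, Finset.sum_congr rfl (g := fun j => (t j.1.1 j.1.2).card)
          fun j hj => by rw [ht, (Finset.mem_filter.1 hj).2], ← Finset.card_biUnion]
        · exact Finset.card_le_card (Finset.biUnion_subset_biUnion_of_subset_left _ (by simp))
        · rintro ⟨⟨a, x⟩, hx⟩ h1 ⟨⟨b, y⟩, hy⟩ h2 hne
          obtain rfl : a = n := (Finset.mem_filter.1 h1).2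
          obtain rfl : b = a := (Finset.mem_filter.1 h2).2
          exact S1 _ hx hy (by simpa using hne)
      have h2 : ((T.filter fun j => j.1.1 = n).card : ℝ) * 2 ^ (n + 1) ≤ U := by exact_mod_cast this
      rw [div_div, mul_one_div, le_div_iff₀ (by positivity), ← pow_succ']
      exact h2
    have h2 := (summable_geometric_two' 1).sum_le_tsum (T.image fun j => j.1.1) fun _ _ => by positivity
    rw [tsum_geometric_two'] at h2
    have h3 : (T.card : ℝ) ≤ U := by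
      rw [Finset.card_eq_sum_card_image (fun j => j.1.1) T, Nat.cast_sum]
      refine (Finset.sum_le_sum fun n _ => h1 n).trans ?_
      rw [← Finset.mul_sum]
      exact mul_le_of_le_one_right (by positivity) h2
    exact_mod_cast h3
  let k : G → Option G := Function.extend f (fun j => some (e (j.1.1 / 2))) fun _ => none
  refine ⟨k, fun a => ?_⟩
  obtain ⟨a, rfl⟩ := e.surjective a
  let W : Finset G := E (2 * a) ∪ E (2 * a + 1)
  refine ⟨(W * W⁻¹ * W : Finset G), h ▸ finset_card_lt_aleph0 _, fun b g => ?_⟩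
  obtain ⟨n, n1, n2, n3⟩ : ∃ n, n / 2 = a ∧ decide (n % 2 = 0) = b ∧ E n ⊆ W := by
    cases b
    · exact ⟨2 * a + 1, by omega, by simp, Finset.subset_union_right⟩
    · exact ⟨2 * a, by omega, by simp, Finset.subset_union_left⟩
  obtain ⟨s, s1, s2⟩ := S2 n g
  obtain ⟨_, h1, h2⟩ := Finset.not_disjoint_iff.1 s2
  obtain ⟨x, hx, rfl⟩ := Finset.mem_image.1 h1
  obtain ⟨y, hy, e2⟩ := Finset.mem_image.1 h2
  obtain ⟨z, hz, e3⟩ := Finset.mem_image.1 (f2 ⟨(n, s), s1⟩)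
  have e4 : k (f ⟨(n, s), s1⟩) = some (e a) := (f1.extend_apply _ _ _).trans (by rw [n1])
  rw [← e3] at e4
  simp only [n2] at e2 e4
  cases b
  · refine ⟨x * y⁻¹ * z, Finset.mul_mem_mul (Finset.mul_mem_mul (n3 hx) (Finset.inv_mem_inv (n3 hy)))
      (n3 hz), ?_⟩
    rw [← e4]; congr 1
    simp only [m, Bool.false_eq_true, if_false] at e2 ⊢
    rw [eq_mul_inv_of_mul_eq e2]; group
  · refine ⟨z * y⁻¹ * x, Finset.mul_mem_mul (Finset.mul_mem_mul (n3 hz) (Finset.inv_mem_inv (n3 hy)))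
      (n3 hx), ?_⟩
    rw [← e4]; congr 1
    simp only [m, if_true] at e2 ⊢
    rw [eq_inv_mul_of_mul_eq e2]; group

omit [Group G] in
lemma mk_J {c : Cardinal.{u}} (hc : ℵ₀ ≤ c) (J : Set (G × Bool × G)) (A B : Set G) (hA : #A ≤ c)
    (hB : #B ≤ c) (h : ∀ j ∈ J, j.1 ∈ A ∧ j.2.2 ∈ B) : #J ≤ c := by
  refine (mk_le_of_injective (β := A × Bool × B) (f := fun j => (⟨_, (h j.1 j.2).1⟩, j.1.2.1,
    ⟨_, (h j.1 j.2).2⟩)) fun i j e => by ext <;> simp_all).trans ?_
  simp only [mk_prod, mk_bool, lift_id, lift_ofNat, lift_uzero]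
  exact mul_le_of_le hc hA (mul_le_of_le hc ((natCast_lt_aleph0 (n := 2)).le.trans hc) hB)

lemma successor (l : Cardinal.{u}) (hl : ℵ₀ ≤ l) (h : #G = succ l) : Good G := by
  obtain ⟨_, _, ho⟩ := exists_ord_eq_type_lt G
  obtain ⟨H, hH⟩ := le_mk_iff_exists_set.1 (h ▸ le_succ l : l ≤ #G)
  let V : G → Subgroup G := fun b => Subgroup.closure (H ∪ Iic b)
  have V0 : ∀ b : G, #(Iic b) ≤ l := fun b => by
    rw [← Iio_insert]
    exact mk_insert_le.trans (add_le_of_le hl (lt_succ_iff.1 (h ▸ mk_Iio_lt b ho)) (one_le_aleph0.trans hl))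
  have V1 : ∀ b, #(V b) ≤ l := fun b => mk_cl _ _ hl ((mk_union_le _ _).trans (add_le_of_le hl hH.le (V0 b)))
  have V2 : Monotone V := fun a b hab => Subgroup.closure_mono (union_subset_union_right _ (Iic_subset_Iic.2 hab))
  have hβ : ∀ x, ∃ b, ∀ a, x ∈ V a ↔ b ≤ a := fun x => by
    obtain ⟨b, h1, h2⟩ := wellFounded_lt.has_min {b | x ∈ V b} ⟨x, Subgroup.subset_closure (by simp)⟩
    exact ⟨b, fun a => ⟨fun h => not_lt.1 (h2 a h), fun h => V2 h h1⟩⟩
  choose β hβ using hβ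
  have β1 : ∀ b a x g, a < β g → x ∈ V a → β (m b x g) = β g := fun b a x g h1 h2 =>
    le_antisymm ((hβ _ _).1 ((m_mem b _ g (V2 h1.le h2)).2 ((hβ _ _).2 le_rfl))) (by
      have := (hβ g _).1 ((m_mem b _ g (V2 (le_max_left a (β (m b x g))) h2)).1
        ((hβ _ _).2 (le_max_right _ _)))
      exact (le_max_iff.1 this).resolve_left h1.not_ge)
  choose f f1 f2 using fun b => sdr {j : G × Bool × G | j.1 < b ∧ β j.2.2 = b}
    (fun j => (fun x => m j.2.1 x j.2.2) '' V j.1) fun j _ => by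
      rw [mk_image_eq (m_inj _ _)]
      exact (mk_J hl _ _ _ (V0 b) (V1 b) fun i hi => ⟨hi.1.le, (hβ _ _).2 hi.2.le⟩).trans
        (hH.ge.trans (mk_le_mk_of_subset (subset_union_left.trans Subgroup.subset_closure)))
  have f3 : ∀ j : G × Bool × G, j.1 < β j.2.2 → β (f (β j.2.2) j) = β j.2.2 := fun j hj => by
    obtain ⟨x, hx, e⟩ := f2 _ j ⟨hj, rfl⟩
    rw [← e]; exact β1 _ _ _ _ hj hx
  obtain ⟨c, hc⟩ := of_inj {j : G × Bool × G | j.1 < β j.2.2} (fun j => f (β j.2.2) j) Prod.fst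
    fun i hi j hj e => by
      have e2 : β i.2.2 = β j.2.2 := by rw [← f3 i hi, ← f3 j hj]; exact congrArg β e
      exact f1 (β j.2.2) ⟨e2 ▸ hi, e2⟩ ⟨hj, rfl⟩ (by simpa [e2] using e)
  refine ⟨c, fun a => ?_⟩
  obtain ⟨g0, hg0⟩ : ∃ g, g ∉ V a := by
    by_contra hh
    push Not at hh
    have := V1 a
    rw [(Subgroup.eq_top_iff' _).2 hh] at this
    exact ((mk_congr Subgroup.topEquiv.toEquiv).symm.le.trans this).not_gt (h ▸ lt_succ l)
  have ht := hc (a, true, g0) (not_le.1 (mt (hβ _ _).2 hg0))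
  generalize f _ _ = t at ht
  refine ⟨V a ∪ ((fun x => m true x t) '' V a ∪ (fun x => m false x t) '' V a), ?_, fun b g => ?_⟩
  · rw [h, lt_succ_iff]
    exact (mk_union_le _ _).trans (add_le_of_le hl (V1 a) ((mk_union_le _ _).trans
      (add_le_of_le hl (mk_image_le.trans (V1 a)) (mk_image_le.trans (V1 a)))))
  · by_cases hg : g ∈ V a
    · cases b
      · exact ⟨_, Or.inr (Or.inl ⟨_, inv_mem hg, rfl⟩), by simpa [m] using ht⟩
      · exact ⟨_, Or.inr (Or.inr ⟨_, inv_mem hg, rfl⟩), by simpa [m] using ht⟩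
    · have := not_le.1 (mt (hβ _ _).2 hg)
      obtain ⟨x, hx, e⟩ := f2 _ (a, b, g) ⟨this, rfl⟩
      exact ⟨x, Or.inl hx, (congrArg c e).trans (hc (a, b, g) this)⟩

def D (H : Subgroup G) (x : G) : Set G := {y | ∃ l ∈ H, ∃ r ∈ H, y = l * x * r}

lemma D_self (H : Subgroup G) (x : G) : x ∈ D H x := ⟨1, H.one_mem, 1, H.one_mem, by simp⟩

lemma D_eq {H : Subgroup G} {x y : G} (h : y ∈ D H x) : D H y = D H x := by
  obtain ⟨l, hl, r, hr, rfl⟩ := h
  ext z
  constructor <;> rintro ⟨a, ha, b, hb, rfl⟩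
  · exact ⟨a * l, H.mul_mem ha hl, r * b, H.mul_mem hr hb, by group⟩
  · exact ⟨a * l⁻¹, H.mul_mem ha (H.inv_mem hl), r⁻¹ * b, H.mul_mem (H.inv_mem hr) hb, by group⟩

lemma D_mono {H K : Subgroup G} (h : H ≤ K) (x : G) : D H x ⊆ D K x :=
  fun _ ⟨a, ha, b, hb, e⟩ => ⟨a, h ha, b, h hb, e⟩

lemma D_m {H : Subgroup G} (b : Bool) {x : G} (g : G) (h : x ∈ H) : m b x g ∈ D H g := by
  cases b
  · exact ⟨1, H.one_mem, x, h, by simp [m]⟩
  · exact ⟨x, h, 1, H.one_mem, by simp [m]⟩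

lemma D_card {H : Subgroup G} {c : Cardinal.{u}} (hc : ℵ₀ ≤ c) (h : #H ≤ c) (x : G) : #(D H x) ≤ c := by
  refine (mk_le_mk_of_subset (t := range fun p : H × H => p.1.1 * x * p.2.1) ?_).trans
    (mk_range_le.trans (by simpa using mul_le_of_le hc h h))
  rintro _ ⟨a, ha, b, hb, rfl⟩
  exact ⟨(⟨a, ha⟩, ⟨b, hb⟩), rfl⟩

lemma levels (X : Type u) (h : ℵ₀ < #X) : ∃ l : X → Cardinal.{u}, (∀ a, ℵ₀ ≤ l a ∧ l a < #X) ∧
    ∀ c < #X, #{a | l a < c} ≤ c ∧ (ℵ₀ < c → c ≤ #{a | l a < c}) := by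
  obtain ⟨_, _, ho⟩ := exists_ord_eq_type_lt X
  refine ⟨fun a => max ℵ₀ #(Iio a), fun a => ⟨le_max_left _ _, max_lt h (mk_Iio_lt a ho)⟩, fun c hc => ?_⟩
  obtain ⟨i, hi⟩ : ∃ i : X, #(Iio i) = c := by
    have h1 : c.ord < Ordinal.type (α := X) (· < ·) := ho ▸ ord_lt_ord.2 hc
    have := Ordinal.card_typein (r := ((· < ·) : X → X → Prop)) (Ordinal.enum (· < ·) ⟨c.ord, h1⟩)
    rw [Ordinal.typein_enum, card_ord] at this
    exact ⟨_, this.symm⟩
  constructor
  · refine (mk_le_mk_of_subset fun a ha => ?_).trans hi.le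
    by_contra hn
    exact (hi.ge.trans (mk_le_mk_of_subset (Iio_subset_Iio (not_lt.1 hn)))).not_gt (max_lt_iff.1 ha).2
  · obtain ⟨j, h1, h2⟩ := wellFounded_lt.has_min {j : X | c ≤ #(Iio j)} ⟨i, hi.ge⟩
    exact fun h0 => h1.trans (mk_le_mk_of_subset fun a ha => max_lt h0 (not_le.1 fun h => h2 a h ha))

lemma limit (h0 : ℵ₀ < #G) (h : ∀ c < #G, succ c < #G) : Good G := by
  classical
  obtain ⟨l, l1, l2⟩ := levels G h0
  let L : Cardinal.{u} → Subgroup G := fun c => Subgroup.closure {a | l a < c}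
  have L1 : Monotone L := fun a b hab => Subgroup.closure_mono fun x (hx : _ < _) => hx.trans_le hab
  have L2 : ∀ c x, x ∈ L c → x = 1 ∨ ∃ b < c, ℵ₀ ≤ b ∧ b < #G ∧ x ∈ L (succ b) := fun c x hx => by
    induction hx using Subgroup.closure_induction with
    | mem x hx => exact Or.inr ⟨_, hx, (l1 x).1, (l1 x).2, Subgroup.subset_closure (lt_succ (l x))⟩
    | one => exact Or.inl rfl
    | inv x _ ih => simpa using ih
    | mul x y _ _ ihx ihy =>
      rcases ihx with rfl | ⟨a, a1, a2, a3, a4⟩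
      · simpa using ihy
      rcases ihy with rfl | ⟨b, b1, b2, b3, b4⟩
      · exact Or.inr ⟨a, a1, a2, a3, by simpa using a4⟩
      exact Or.inr ⟨max a b, max_lt a1 b1, le_max_of_le_left a2, max_lt a3 b3, mul_mem
        (L1 (succ_le_succ (le_max_left _ _)) a4) (L1 (succ_le_succ (le_max_right _ _)) b4)⟩
  have L3 : ∀ c x y, x ∈ D (L c) y → x = y ∨ ∃ b < c, ℵ₀ ≤ b ∧ b < #G ∧ x ∈ D (L (succ b)) y := by
    rintro c _ y ⟨p, hp, q, hq, rfl⟩
    rcases L2 c p hp with rfl | ⟨a, a1, a2, a3, a4⟩ <;> rcases L2 c q hq with rfl | ⟨b, b1, b2, b3, b4⟩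
    · simp
    · exact Or.inr ⟨b, b1, b2, b3, 1, one_mem _, q, b4, rfl⟩
    · exact Or.inr ⟨a, a1, a2, a3, p, a4, 1, one_mem _, rfl⟩
    · exact Or.inr ⟨max a b, max_lt a1 b1, le_max_of_le_left a2, max_lt a3 b3, p,
        L1 (succ_le_succ (le_max_left _ _)) a4, q, L1 (succ_le_succ (le_max_right _ _)) b4, rfl⟩
  have Q : ∀ γ : Cardinal.{u}, ∀ y, ∃ c : G → Option G, c y = none ∧ ∀ a, l a < γ → ∀ b,
      ∀ g ∈ D (L γ) y, ∃ x ∈ L (succ (l a)), c (m b x g) = some a := by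
    intro γ
    induction γ using WellFoundedLT.induction with
    | ind γ ih =>
    intro y
    have sh : ∀ β : Cardinal.{u}, ∃ c : G → Option G, β < γ → ℵ₀ ≤ β → β < #G →
        (∀ a, l a < β → ∀ b g, ∃ x ∈ L (succ (l a)), c (m b x g) = some a) ∧
        ∀ a, l a = β → ∀ b, ∀ g ∈ D (L (succ β)) y, ∃ x ∈ L (succ β), m b x g ∉ D (L β) y ∧
          c (m b x g) = some a := by
      intro β
      by_cases hβ : β < γ ∧ ℵ₀ ≤ β ∧ β < #G
      swap
      · exact ⟨fun _ => none, fun a b c => (hβ ⟨a, b, c⟩).elim⟩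
      obtain ⟨b1, b2, b3⟩ := hβ
      choose C C1 C2 using ih β b1
      have s0 := b2.trans (le_succ β)
      have s1 := (l2 _ (h β b3)).1
      have s2 := (l2 _ (h β b3)).2 (b2.trans_lt (lt_succ β))
      let J : Set (G × Bool × G) := {j | l j.1 = β ∧ j.2.2 ∈ D (L (succ β)) y}
      obtain ⟨f, f1, f2⟩ := sdr J (fun j => D (L β) '' ((fun x => m j.2.1 x j.2.2) '' L (succ β)) \
          {D (L β) y}) fun j _ => by
        refine (mk_J s0 _ _ _ s1 (D_card s0 (mk_cl _ _ s0 s1) y)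
          fun i hi => ⟨hi.1.trans_lt (lt_succ β), hi.2⟩).trans (succ_le_of_lt (lt_of_not_ge fun hh => ?_))
        set T := D (L β) '' ((fun x => m j.2.1 x j.2.2) '' L (succ β))
        have t1 : #T ≤ β := (mk_le_mk_of_subset (subset_insert_sdiff_singleton (D (L β) y) T)).trans
          (mk_insert_le.trans (add_le_of_le b2 hh (one_le_aleph0.trans b2)))
        have t2 : #(⋃₀ T) ≤ β := (mk_sUnion_le T).trans (mul_le_of_le b2 t1 (ciSup_le' ?_))
        · refine (t2.trans_lt (lt_succ β)).not_ge (s2.trans ((mk_le_mk_of_subset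
            Subgroup.subset_closure).trans ((mk_image_eq (m_inj j.2.1 j.2.2)).ge.trans
            (mk_le_mk_of_subset fun x hx => ⟨_, ⟨x, hx, rfl⟩, D_self _ _⟩))))
        · rintro ⟨_, x, -, rfl⟩
          exact D_card b2 (mk_cl _ _ b2 (l2 _ b3).1) x
      choose q q1 q2 using fun j : J => (f2 j j.2).1
      have qi : Function.Injective q := fun i j e =>
        Subtype.ext (f1 i.2 j.2 (by rw [← q2, ← q2, e]))
      have : ∀ S : Set G, ∃ p, ∀ x, S = D (L β) x → p ∈ S ∧ ∀ j, q j ∈ S → q j = p := fun S => by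
        by_cases h1 : ∃ j, q j ∈ S
        · obtain ⟨j, hj⟩ := h1
          refine ⟨q j, ?_⟩
          rintro x rfl
          exact ⟨hj, fun i hi => congrArg q (Subtype.ext (f1 i.2 j.2
            (by rw [← q2, ← q2, D_eq hi, D_eq hj])))⟩
        · by_cases h2 : S.Nonempty
          · exact ⟨h2.some, fun x _ => ⟨h2.some_mem, fun j hj => (h1 ⟨j, hj⟩).elim⟩⟩
          · exact ⟨1, fun x hx => (h2 ⟨x, hx ▸ D_self _ _⟩).elim⟩
      choose p hp using this
      refine ⟨Function.extend q (fun j => some j.1.1) fun x => C (p (D (L β) x)) x, fun _ _ _ =>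
        ⟨fun a ha b g => ?_, fun a ha b g hg => ?_⟩⟩
      · obtain ⟨p1, p2⟩ := hp _ g rfl
        obtain ⟨x, hx, e⟩ := C2 (p (D (L β) g)) a ha b g (by rw [D_eq p1]; exact D_self _ _)
        have m1 := D_m b g (L1 (succ_le_of_lt ha) hx)
        refine ⟨x, hx, ?_⟩
        rw [Function.extend_apply', D_eq m1, e]
        rintro ⟨j, hj⟩
        rw [← hj, p2 j (hj ▸ m1), C1] at e
        cases e
      · obtain ⟨x, hx, e⟩ := q1 ⟨(a, b, g), ha, hg⟩
        refine ⟨x, hx, fun hh => (f2 (a, b, g) ⟨ha, hg⟩).2 ?_, ?_⟩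
        · exact (q2 ⟨(a, b, g), ha, hg⟩).symm.trans (D_eq (e ▸ hh))
        · exact (congrArg _ e).trans (qi.extend_apply _ _ _)
    choose c hc using sh
    have : ∀ x, ∃ β, ∀ β', ℵ₀ ≤ β' → x ∈ D (L (succ β')) y → x ∉ D (L β') y → β = β' := fun x => by
      by_cases hx : ∃ β', ℵ₀ ≤ β' ∧ x ∈ D (L (succ β')) y ∧ x ∉ D (L β') y
      · obtain ⟨β, -, a2, a3⟩ := hx
        refine ⟨β, fun β' _ b2 b3 => le_antisymm (not_lt.1 fun h => a3 ?_) (not_lt.1 fun h => b3 ?_)⟩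
        exacts [D_mono (L1 (succ_le_of_lt h)) _ b2, D_mono (L1 (succ_le_of_lt h)) _ a2]
      · exact ⟨0, fun β' a b c => (hx ⟨β', a, b, c⟩).elim⟩
    choose β hβ using this
    have fin : ∀ x β', ℵ₀ ≤ β' → x ∈ D (L (succ β')) y → x ∉ D (L β') y →
        (if x = y then none else c (β x) x) = c β' x := fun x β' a1 a2 a3 => by
      rw [if_neg (by rintro rfl; exact a3 (D_self _ _)), hβ x β' a1 a2 a3]
    refine ⟨fun x => if x = y then none else c (β x) x, if_pos rfl, fun a ha b g hg => ?_⟩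
    by_cases hg2 : g ∈ D (L (succ (l a))) y
    · obtain ⟨x, hx, a1, a2⟩ := (hc _ ha (l1 a).1 (l1 a).2).2 a rfl b g hg2
      exact ⟨x, hx, (fin _ _ (l1 a).1 (D_eq hg2 ▸ D_m b g hx) a1).trans a2⟩
    · obtain ⟨δ, ⟨d1, d2, d3, d4⟩, d5⟩ := wellFounded_lt.has_min
        {b | b < γ ∧ ℵ₀ ≤ b ∧ b < #G ∧ g ∈ D (L (succ b)) y}
        ((L3 γ g y hg).resolve_left fun e => hg2 (e ▸ D_self _ _))
      have d6 : l a < δ := not_le.1 fun h => hg2 (D_mono (L1 (succ_le_succ h)) _ d4)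
      have d7 : g ∉ D (L δ) y := fun h => by
        rcases L3 δ g y h with e | ⟨b, b1, b2, b3, b4⟩
        · exact hg2 (e ▸ D_self _ _)
        · exact d5 b ⟨b1.trans d1, b2, b3, b4⟩ b1
      obtain ⟨x, hx, e⟩ := (hc _ d1 d2 d3).1 a d6 b g
      have m1 := D_m b g (L1 (succ_le_of_lt d6) hx)
      refine ⟨x, hx, (fin _ _ d2 (D_eq d4 ▸ D_mono (L1 (le_succ δ)) _ m1) fun h => d7 ?_).trans e⟩
      rw [← D_eq h, D_eq m1]; exact D_self _ _
  obtain ⟨c, -, hc⟩ := Q #G 1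
  refine ⟨c, fun a => ⟨L (succ (l a)), (mk_cl _ _ ((l1 a).1.trans (le_succ _))
    (l2 _ (h _ (l1 a).2)).1).trans_lt (h _ (l1 a).2), fun b g => hc a (l1 a).2 b g
    ⟨g, Subgroup.subset_closure (l1 g).2, 1, one_mem _, by simp⟩⟩⟩

theorem result (G : Type u) [Group G] [Infinite G] : ∃ P : G → Set G,
    Pairwise (fun a b => Disjoint (P a) (P b)) ∧ (∀ a, (P a).Nonempty) ∧ ⋃ a, P a = Set.univ ∧
    ∀ a, Large #G (P a) := by
  obtain ⟨c, hc⟩ : Good G := by
    rcases (aleph0_le_mk G).eq_or_lt with h | h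
    · exact countable h.symm
    by_cases h2 : ∀ c < #G, succ c < #G
    · exact limit h h2
    push Not at h2
    obtain ⟨c, h1, h2⟩ := h2
    exact successor c (lt_succ_iff.1 (h.trans_le h2)) (h2.antisymm (succ_le_of_lt h1))
  refine ⟨fun a => {x | (c x).getD 1 = a}, fun a b hab => disjoint_left.2 fun x h1 h2 =>
    hab (h1.symm.trans h2), fun a => ?_, eq_univ_of_forall fun x => mem_iUnion.2 ⟨_, rfl⟩, fun a => ?_⟩
  · obtain ⟨F, -, h⟩ := hc a
    obtain ⟨f, -, e⟩ := h true 1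
    exact ⟨m true f 1, by simp [e]⟩
  · obtain ⟨F, h1, h⟩ := hc a
    have : #(F⁻¹ : Set G) < #G := by rw [← image_inv_eq_inv]; exact mk_image_le.trans_lt h1
    refine ⟨⟨F⁻¹, this, eq_univ_of_forall fun g => ?_⟩, F⁻¹, this, eq_univ_of_forall fun g => ?_⟩
    · obtain ⟨f, hf, e⟩ := h true g
      exact ⟨f⁻¹, by simpa using hf, _, (by simp [e] : (c (m true f g)).getD 1 = a), by simp [m]⟩
    · obtain ⟨f, hf, e⟩ := h false g
      exact ⟨_, (by simp [e] : (c (m false f g)).getD 1 = a), f⁻¹, by simpa using hf, by simp [m]⟩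

end Pool.Agent.Results.MP_68822d_al.Part
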